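import Pool.Agent.N979.CP.Stm
import Pool.Agent.N526.CP.MOM
import Pool.Agent.N526.CP.GRAM

/-!
# CPN2/FN: two integrals over the sphere (helper394)
-/

set_option autoImplicit false

open MeasureTheory Metric Set Filter Topology InnerProductGeometry Matrix

namespace Pool.Agent.N394.CPFN

open Pool.Agent.H241R3.FV Pool.Agent.N526.CP Pool.Agent.N979.CP
open Pool.Agent.N526.CP.GRAM (cl_mul cl_one det_cl)

/-- the weights of the coordinates -/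
noncomputable def Dg (d : ℕ) (r : ℝ) : Fin (d + 1) → ℝ := Fin.cons r fun _ => 1

theorem cl_diag {n : ℕ} (D : Fin n → ℝ) (v : E n) (i : Fin n) :
    cl (Matrix.diagonal D) v i = D i * v i := by
  unfold cl
  rw [Matrix.ofLp_toEuclideanCLM, Matrix.mulVec_diagonal]

theorem diag_inv {d : ℕ} {r : ℝ} (hr : r ≠ 0) :
    Matrix.diagonal (Dg d r) * Matrix.diagonal (Dg d r⁻¹) = 1 := by
  rw [Matrix.diagonal_mul_diagonal, ← Matrix.diagonal_one]
  congr 1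
  funext i
  refine Fin.cases ?_ (fun j => ?_) i
  · simp [Dg, hr]
  · simp [Dg]

theorem diag_inv' {d : ℕ} {r : ℝ} (hr : r ≠ 0) :
    Matrix.diagonal (Dg d r⁻¹) * Matrix.diagonal (Dg d r) = 1 := by
  have := diag_inv (d := d) (inv_ne_zero hr)
  rwa [inv_inv] at this

/-- multiplication of the first coordinate by `r` -/
noncomputable def Ad (d : ℕ) (r : ℝ) (hr : r ≠ 0) : E (d + 1) ≃L[ℝ] E (d + 1) :=
  ContinuousLinearEquiv.equivOfInverse (cl (Matrix.diagonal (Dg d r)))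
    (cl (Matrix.diagonal (Dg d r⁻¹)))
    (fun v => by rw [cl_mul, diag_inv' hr, cl_one])
    (fun v => by rw [cl_mul, diag_inv hr, cl_one])

theorem Ad_det (d : ℕ) (r : ℝ) (hr : r ≠ 0) :
    (Ad d r hr : E (d + 1) →L[ℝ] E (d + 1)).det = r := by
  have h1 : (Ad d r hr : E (d + 1) →L[ℝ] E (d + 1)) = cl (Matrix.diagonal (Dg d r)) := rfl
  rw [h1, det_cl, Matrix.det_diagonal, Fin.prod_univ_succ]
  simp [Dg]

theorem Ad_zero (d : ℕ) (r : ℝ) (hr : r ≠ 0) (v : E (d + 1)) : Ad d r hr v 0 = r * v 0 := by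
  have h1 : Ad d r hr v = cl (Matrix.diagonal (Dg d r)) v := rfl
  rw [h1, cl_diag]
  simp [Dg]

theorem Ad_norm (d : ℕ) (r : ℝ) (hr : r ≠ 0) (v : E (d + 1)) :
    ‖Ad d r hr v‖ ^ 2 = ‖v‖ ^ 2 + (r ^ 2 - 1) * v 0 ^ 2 := by
  have h1 : Ad d r hr v = cl (Matrix.diagonal (Dg d r)) v := rfl
  rw [h1, EuclideanSpace.real_norm_sq_eq, EuclideanSpace.real_norm_sq_eq, Fin.sum_univ_succ,
    Fin.sum_univ_succ]
  simp only [cl_diag]
  simp only [Dg, Fin.cons_zero, Fin.cons_succ, one_mul]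
  ring

theorem main (hS : S_SPH) (hC : S_CHV) : S_FN := by
  intro d hd s
  have hp := (hS d hd).1
  have hm : ∫ θ : Sph (d + 1), (θ : E (d + 1)) 0 ^ 2 ∂(sg (d + 1)) = 1 / ((d + 1 : ℝ)) :=
    (MOM.t d hd).1
  have hcont : Continuous fun θ : Sph (d + 1) => (θ : E (d + 1)) 0 ^ 2 := by fun_prop
  have hint : Integrable (fun θ : Sph (d + 1) => (θ : E (d + 1)) 0 ^ 2) (sg (d + 1)) :=
    hcont.integrable_of_hasCompactSupport (HasCompactSupport.of_compactSpace _)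
  have hm1 : ∫ θ : Sph (d + 1), (1 - (θ : E (d + 1)) 0 ^ 2) ∂(sg (d + 1)) =
      1 - 1 / ((d + 1 : ℝ)) := by
    rw [integral_sub (integrable_const _) hint, hm]
    simp
  obtain ⟨r, hr⟩ : ∃ r : ℝ, r = √(1 + s ^ 2) := ⟨_, rfl⟩
  have hr2 : r ^ 2 = 1 + s ^ 2 := by rw [hr]; exact Real.sq_sqrt (by positivity)
  have hr0 : 0 < r := by rw [hr]; exact Real.sqrt_pos.2 (by positivity)
  have hnθ : ∀ θ : Sph (d + 1), ‖(θ : E (d + 1))‖ = 1 := fun θ => by simp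
  have hn : ∀ θ : Sph (d + 1), ‖Ad d r hr0.ne' (θ : E (d + 1))‖ =
      √(1 + (s * (θ : E (d + 1)) 0) ^ 2) := by
    intro θ
    rw [← Real.sqrt_sq (norm_nonneg (Ad d r hr0.ne' (θ : E (d + 1)))), Ad_norm, hnθ, hr2]
    congr 1
    ring
  have hw : ∀ θ : Sph (d + 1), 0 < √(1 + (s * (θ : E (d + 1)) 0) ^ 2) := fun θ =>
    Real.sqrt_pos.2 (by positivity)
  have hw2 : ∀ θ : Sph (d + 1), √(1 + (s * (θ : E (d + 1)) 0) ^ 2) ^ 2 =
      1 + (s * (θ : E (d + 1)) 0) ^ 2 := fun θ => Real.sq_sqrt (by positivity)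
  rw [← hr]
  have hd1 : (d : ℝ) + 1 ≠ 0 := by positivity
  constructor
  · have h1 := hC (d + 1) (by omega) (Ad d r hr0.ne') (fun y => y 0 ^ 2) (by fun_prop)
    rw [Ad_det, abs_of_pos hr0, hm] at h1
    have h2 : ∀ θ : Sph (d + 1), (‖Ad d r hr0.ne' (θ : E (d + 1))‖⁻¹ •
        Ad d r hr0.ne' (θ : E (d + 1))) 0 ^ 2 * ‖Ad d r hr0.ne' (θ : E (d + 1))‖⁻¹ ^ (d + 1) =
        r ^ 2 * ((θ : E (d + 1)) 0 ^ 2 *
          ((√(1 + (s * (θ : E (d + 1)) 0) ^ 2))⁻¹) ^ (d + 3)) := by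
      intro θ
      rw [PiLp.smul_apply, Ad_zero, hn, smul_eq_mul]
      ring
    rw [integral_congr_ae (Eventually.of_forall h2), integral_const_mul] at h1
    have h4 : ∀ I : ℝ, r * (r ^ 2 * I) = 1 / (d + 1) → I = ((d + 1 : ℝ) * r ^ 3)⁻¹ := by
      intro I h
      have h5 : r ≠ 0 := hr0.ne'
      field_simp
      field_simp at h
      linarith
    exact h4 _ h1
  · have h1 := hC (d + 1) (by omega) (Ad d r hr0.ne') (fun y => ‖y‖ ^ 2 - y 0 ^ 2) (by fun_prop)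
    have h3 : ∀ θ : Sph (d + 1), ‖(θ : E (d + 1))‖ ^ 2 - (θ : E (d + 1)) 0 ^ 2 =
        1 - (θ : E (d + 1)) 0 ^ 2 := by
      intro θ
      rw [hnθ, one_pow]
    rw [Ad_det, abs_of_pos hr0, integral_congr_ae (Eventually.of_forall h3), hm1] at h1
    have h2 : ∀ θ : Sph (d + 1), (‖‖Ad d r hr0.ne' (θ : E (d + 1))‖⁻¹ •
        Ad d r hr0.ne' (θ : E (d + 1))‖ ^ 2 - (‖Ad d r hr0.ne' (θ : E (d + 1))‖⁻¹ •
        Ad d r hr0.ne' (θ : E (d + 1))) 0 ^ 2) * ‖Ad d r hr0.ne' (θ : E (d + 1))‖⁻¹ ^ (d + 1) =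
        (1 - (θ : E (d + 1)) 0 ^ 2) *
          ((√(1 + (s * (θ : E (d + 1)) 0) ^ 2))⁻¹) ^ (d + 3) := by
      intro θ
      rw [PiLp.smul_apply, Ad_zero, norm_smul, hn, smul_eq_mul, norm_inv, Real.norm_eq_abs,
        abs_of_pos (hw θ)]
      have h5 := hw2 θ
      have h6 := hw θ
      obtain ⟨a, ha⟩ : ∃ a : ℝ, a = (θ : E (d + 1)) 0 := ⟨_, rfl⟩
      rw [← ha] at h5 h6 ⊢
      obtain ⟨W, hW⟩ : ∃ W : ℝ, W = √(1 + (s * a) ^ 2) := ⟨_, rfl⟩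
      rw [← hW] at h5 h6 ⊢
      have h7 : (W⁻¹ * W) ^ 2 - (W⁻¹ * (r * a)) ^ 2 = (1 - a ^ 2) * W⁻¹ ^ 2 := by
        have h8 : W⁻¹ * W = 1 := inv_mul_cancel₀ h6.ne'
        have h9 : W⁻¹ ^ 2 * W ^ 2 = 1 := by rw [← mul_pow, h8, one_pow]
        calc (W⁻¹ * W) ^ 2 - (W⁻¹ * (r * a)) ^ 2 = W⁻¹ ^ 2 * (W ^ 2 - r ^ 2 * a ^ 2) := by ring
          _ = _ := by
              rw [h5, hr2]
              ring
      rw [h7]
      ring
    rw [integral_congr_ae (Eventually.of_forall h2)] at h1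
    have h4 : ∀ I : ℝ, r * I = 1 - 1 / ((d : ℝ) + 1) → I = d * ((d + 1 : ℝ) * r)⁻¹ := by
      intro I h
      have h5 : r ≠ 0 := hr0.ne'
      field_simp
      field_simp at h
      linarith
    exact h4 _ h1

end Pool.Agent.N394.CPFN
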