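import Pool.Agent.N964.GX.Stm
import Pool.Agent.N364.MX2C
import Pool.Agent.N429.MX2A
import Pool.Agent.N136.MX2B
import Pool.Agent.N99.MXD

set_option autoImplicit false

/-!
# Project GX, part C: splitting of the prime polynomial, square sums of the pieces
-/

namespace Pool.Agent.N394.GXC

open Complex MeasureTheory
open Pool.Agent.N964.MX hiding mem_Pl
open Pool.Agent.N964.GX Pool.Agent.N364.MX2C

theorem splita : S_splita := by
  intro a n m l δ t hl hm h
  have key : ∀ p ∈ Pl l, ∑ i ∈ Finset.range (n + 1), cp n m l δ i p = cc l δ p := by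
    intro p hp
    rw [mem_Pl] at hp
    have hpos : 0 < Real.log p := Real.log_pos (by exact_mod_cast hp.1.one_lt)
    set st : ℕ → ℝ := fun i => if Real.log p ≤ th n l m i then cc l δ p else 0 with hst
    have h1 : ∀ i ∈ Finset.range (n + 1), cp n m l δ i p = st i - st (i + 1) := by
      intro i hi
      rw [Finset.mem_range, Nat.lt_succ_iff] at hi
      have h2 := th_succ_le hl hm h hi
      simp only [cp, hst]
      by_cases h3 : Real.log p ≤ th n l m (i + 1)
      · rw [if_neg (fun hc => not_lt.2 h3 hc.1), if_pos h3, if_pos (h3.trans h2), sub_self]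
      · rw [if_neg h3]
        by_cases h4 : Real.log p ≤ th n l m i
        · rw [if_pos ⟨not_le.1 h3, h4⟩, if_pos h4, sub_zero]
        · rw [if_neg (fun hc => h4 hc.2), if_neg h4, sub_zero]
    rw [Finset.sum_congr rfl h1, Finset.sum_range_sub']
    simp only [hst, th_zero, th_last]
    rw [if_pos hp.2, if_neg (not_le.2 hpos), sub_zero]
  have hPc : ∀ i ∈ Finset.range (n + 1), Pa a n m l δ t i =
      ∑ p ∈ Pl l, (((cp n m l δ i p : ℝ) : ℂ) * al a p) * (p : ℂ) ^ (-(t : ℂ) * I) := by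
    intro i hi
    rw [Finset.mem_range, Nat.lt_succ_iff] at hi
    unfold Pa
    refine Finset.sum_subset ?_ ?_
    · intro p hp
      rw [mem_Pl] at hp ⊢
      exact ⟨hp.1, hp.2.trans (th_le hl hm hi)⟩
    · intro p hp hp'
      rw [mem_Pl] at hp hp'
      have h2 : cp n m l δ i p = 0 := by
        unfold cp
        rw [if_neg]
        intro hc
        exact hp' ⟨hp.1, hc.2⟩
      rw [h2]
      simp
  have hsum : PA a l δ t = ∑ i ∈ Finset.range (n + 1), Pa a n m l δ t i := by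
    rw [Finset.sum_congr rfl hPc, Finset.sum_comm]
    unfold PA
    refine Finset.sum_congr rfl fun p hp => ?_
    rw [← Finset.sum_mul, ← Finset.sum_mul, ← key p hp]
    push_cast
    rfl
  rw [hsum]
  exact norm_sum_le _ _

theorem vark : S_vark := by
  intro κ hκ
  have h1 := Pool.Agent.N429.MX2A.edge
  have h2 := Pool.Agent.N136.MX2B.loc
  have h3 := Pool.Agent.N99.MXD.coef
  obtain ⟨C1, hC1, h1⟩ := h1
  obtain ⟨C2, hC2, h2⟩ := h2
  obtain ⟨C3, hC3, h3⟩ := h3
  refine ⟨max 1 (max (40 * κ ^ 2 * C1 ^ 2 * C2) (192 * κ ^ 2 * C3)), le_max_left _ _, ?_⟩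
  intro n i m l δ hl hδ hδ1 hm h hm2 hml hlog hDd hi
  have hl0 : 0 < l := by linarith
  have hm0 : 0 < m := by linarith
  set B := max 1 (max (40 * κ ^ 2 * C1 ^ 2 * C2) (192 * κ ^ 2 * C3)) with hB
  have hB1 : 40 * κ ^ 2 * C1 ^ 2 * C2 ≤ B := le_trans (le_max_left _ _) (le_max_right _ _)
  have hB2 : 192 * κ ^ 2 * C3 ≤ B := le_trans (le_max_right _ _) (le_max_right _ _)
  have hDd0 : 0 ≤ Dd l δ := by
    unfold Dd
    apply Real.log_nonneg
    have : 0 ≤ 1 / (l * δ) := by positivity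
    linarith
  have hww := (h3 l δ hl hδ hδ1).1
  rcases Nat.lt_or_ge i n with hin | hin
  · -- a piece below the last one
    have ha : l / 2 ≤ th n l m (i + 1) := th_ge hl0 hm0 h hin
    have hab : th n l m (i + 1) ≤ th n l m i := th_succ_le hl0 hm0 h hi
    have hloc := h2 (th n l m (i + 1)) (th n l m i) (by linarith) hab
    have hdiff : th n l m i - th n l m (i + 1) = l * 2 ^ i / m := by
      rw [th_of_le l m hi, th_of_le l m (show i + 1 ≤ n from hin), pow_succ]
      field_simp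
      ring
    have h2i : (1 : ℝ) ≤ 2 ^ i := one_le_pow₀ (by norm_num)
    -- the coefficients
    have hcp : ∀ p ∈ (Pl (th n l m i)).filter (fun p : ℕ => th n l m (i + 1) < Real.log p),
        cp n m l δ i p ^ 2 ≤ 4 * κ ^ 2 * C1 ^ 2 * 4 ^ i * (1 / (p : ℝ)) := by
      intro p hp
      rw [Finset.mem_filter, mem_Pl] at hp
      obtain ⟨⟨hpp, hp1⟩, hp2⟩ := hp
      have hp0 : (0 : ℝ) < p := by exact_mod_cast hpp.pos
      have hu1 : l / 2 ≤ Real.log p := by linarith
      have hu0 : 0 < Real.log p := by linarith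
      have hu2 : Real.log p ≤ l := hp1.trans (th_le hl0 hm0 hi)
      have hw0 := (hww (Real.log p) hu0 hu2).1
      have hw1 := h1 l δ (Real.log p) hl hδ hδ1 hu1 hu2
      have hlu : l - Real.log p ≤ 2 * l * 2 ^ i / m := by
        have h4 : th n l m (i + 1) = l * (1 - (2 ^ (i + 1) - 1) / m) :=
          th_of_le l m (show i + 1 ≤ n from hin)
        have h5 : l * (1 - (2 ^ (i + 1) - 1) / m) = l - l * (2 * 2 ^ i - 1) / m := by
          rw [pow_succ]
          ring
        have h6 : l * (2 * 2 ^ i - 1) / m ≤ 2 * l * 2 ^ i / m := by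
          apply div_le_div_of_nonneg_right _ hm0.le
          nlinarith
        linarith
      have hlu0 : 0 ≤ l - Real.log p := by linarith
      have hw2 : ww l δ (Real.log p) ≤ 2 * κ * C1 * 2 ^ i / l := by
        calc ww l δ (Real.log p) ≤ C1 * ((l - Real.log p) / l ^ 2) * Dd l δ := hw1
          _ ≤ C1 * ((2 * l * 2 ^ i / m) / l ^ 2) * (κ * m) := by gcongr
          _ = 2 * κ * C1 * 2 ^ i / l := by
            field_simp
      have hcc0 : 0 ≤ cc l δ p := by
        unfold cc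
        positivity
      have hcc1 : cc l δ p ≤ 2 * κ * C1 * 2 ^ i / Real.sqrt p := by
        unfold cc
        calc Real.log p / Real.sqrt p * ww l δ (Real.log p)
            ≤ l / Real.sqrt p * (2 * κ * C1 * 2 ^ i / l) := by gcongr
          _ = 2 * κ * C1 * 2 ^ i / Real.sqrt p := by
            field_simp
      have hcpe : cp n m l δ i p = cc l δ p := by
        unfold cp
        rw [if_pos ⟨hp2, hp1⟩]
      rw [hcpe]
      calc cc l δ p ^ 2 ≤ (2 * κ * C1 * 2 ^ i / Real.sqrt p) ^ 2 := by gcongr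
        _ = 4 * κ ^ 2 * C1 ^ 2 * 4 ^ i * (1 / (p : ℝ)) := by
          rw [div_pow, Real.sq_sqrt hp0.le, mul_pow, mul_pow, ← pow_mul, mul_comm i 2, pow_mul]
          norm_num
          ring
    have hfil : ∑ p ∈ Pl (th n l m i), cp n m l δ i p ^ 2 =
        ∑ p ∈ (Pl (th n l m i)).filter (fun p : ℕ => th n l m (i + 1) < Real.log p),
          cp n m l δ i p ^ 2 := by
      rw [Finset.sum_filter]
      refine Finset.sum_congr rfl fun p _ => ?_
      split_ifs with hc
      · rfl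
      · unfold cp
        rw [if_neg (fun h' => hc h'.1)]
        ring
    rw [hfil]
    calc ∑ p ∈ (Pl (th n l m i)).filter (fun p : ℕ => th n l m (i + 1) < Real.log p),
          cp n m l δ i p ^ 2
        ≤ ∑ p ∈ (Pl (th n l m i)).filter (fun p : ℕ => th n l m (i + 1) < Real.log p),
          4 * κ ^ 2 * C1 ^ 2 * 4 ^ i * (1 / (p : ℝ)) := Finset.sum_le_sum hcp
      _ = 4 * κ ^ 2 * C1 ^ 2 * 4 ^ i *
          ∑ p ∈ (Pl (th n l m i)).filter (fun p : ℕ => th n l m (i + 1) < Real.log p),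
            1 / (p : ℝ) := by rw [Finset.mul_sum]
      _ ≤ 4 * κ ^ 2 * C1 ^ 2 * 4 ^ i *
          (C2 * ((th n l m i - th n l m (i + 1) + 1) / th n l m (i + 1))) := by gcongr
      _ ≤ 4 * κ ^ 2 * C1 ^ 2 * 4 ^ i * (C2 * ((l * 2 ^ i / m + 1) / (l / 2))) := by
        rw [hdiff]
        gcongr
      _ ≤ 4 * κ ^ 2 * C1 ^ 2 * 4 ^ i * (C2 * (10 * 2 ^ i / m)) := by
        have h5 : (l * 2 ^ i / m + 1) / (l / 2) ≤ 10 * 2 ^ i / m := by
          rw [div_le_div_iff₀ (by linarith) hm0]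
          have h6 : (l * 2 ^ i / m + 1) * m = l * 2 ^ i + m := by
            field_simp
          rw [h6]
          nlinarith
        gcongr
      _ = 40 * κ ^ 2 * C1 ^ 2 * C2 * (8 : ℝ) ^ i / m := by
        have h6 : (8 : ℝ) ^ i = 4 ^ i * 2 ^ i := by
          rw [← mul_pow]
          norm_num
        rw [h6]
        ring
      _ ≤ B * 8 ^ i / m := by gcongr
  · -- the last piece
    have hin' : i = n := le_antisymm hi hin
    subst hin'
    have hall := (h3 l δ hl hδ hδ1).2.1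
    have hsub : ∑ p ∈ Pl (th i l m i), cp i m l δ i p ^ 2 ≤ ∑ p ∈ Pl l, cc l δ p ^ 2 := by
      calc ∑ p ∈ Pl (th i l m i), cp i m l δ i p ^ 2
          ≤ ∑ p ∈ Pl (th i l m i), cc l δ p ^ 2 := by
            refine Finset.sum_le_sum fun p _ => ?_
            unfold cp
            split_ifs
            · exact le_rfl
            · simpa using sq_nonneg (cc l δ p)
        _ ≤ ∑ p ∈ Pl l, cc l δ p ^ 2 := by
            refine Finset.sum_le_sum_of_subset_of_nonneg ?_ fun _ _ _ => sq_nonneg _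
            intro p hp
            rw [mem_Pl] at hp ⊢
            exact ⟨hp.1, hp.2.trans (th_le hl0 hm0 le_rfl)⟩
    have hm3 : m ^ 3 ≤ 64 * 8 ^ i := by
      have h4 : m ^ 3 ≤ (4 * 2 ^ i) ^ 3 := by gcongr
      have h5 : ((4 : ℝ) * 2 ^ i) ^ 3 = 64 * 8 ^ i := by
        rw [mul_pow, ← pow_mul, mul_comm i 3, pow_mul]
        norm_num
      rwa [h5] at h4
    have hfin : C3 * (1 + Real.log l + Dd l δ ^ 2) ≤ 3 * κ ^ 2 * C3 * m ^ 2 := by
      have h4 : Dd l δ ^ 2 ≤ (κ * m) ^ 2 := by gcongr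
      have h5 : 1 + Real.log l + Dd l δ ^ 2 ≤ 3 * κ ^ 2 * m ^ 2 := by nlinarith [mul_le_mul hκ hm zero_le_one (by linarith), mul_pos (lt_of_lt_of_le one_pos hκ) hm0]
      nlinarith
    have hfin2 : 3 * κ ^ 2 * C3 * m ^ 2 ≤ 192 * κ ^ 2 * C3 * 8 ^ i / m := by
      rw [le_div_iff₀ hm0]
      have h9 := mul_le_mul_of_nonneg_left hm3 (by positivity : 0 ≤ 3 * κ ^ 2 * C3)
      linarith
    calc ∑ p ∈ Pl (th i l m i), cp i m l δ i p ^ 2 ≤ ∑ p ∈ Pl l, cc l δ p ^ 2 := hsub
      _ ≤ C3 * (1 + Real.log l + Dd l δ ^ 2) := hall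
      _ ≤ 3 * κ ^ 2 * C3 * m ^ 2 := hfin
      _ ≤ 192 * κ ^ 2 * C3 * 8 ^ i / m := hfin2
      _ ≤ B * 8 ^ i / m := by gcongr

end Pool.Agent.N394.GXC
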